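import Pool.Agent.Y228.LD.PT
import Pool.Agent.W186.LH.Fac

set_option autoImplicit false

/-! Task GD2H-CNX: the number of zeros near a good height (port of `Pool.Agent.W505.SD.Cnx`). -/

namespace Pool.Agent.Y228.LD

open Complex Filter Topology MeasureTheory Set
open Pool.Agent.Y671.LD
open Pool.Agent.H24R2.JP (Om)
open Pool.Agent.H24R2.DZ (ra NN)
open Pool.Agent.W186.SD (UU NG Grow S_NGN S_CNT Std)
open Pool.Agent.W186.SD.PTaux (NG_mono NN_mono UU_symm F_one_pos noz)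
open Pool.Agent.W186.LH (single ord_of)

theorem TopOK_mono {F : ℂ → ℂ} {R η η' t : ℝ} (ht : 3 ≤ t) (h : η ≤ η') (hL : TopOK F R η t) :
    TopOK F R η' t := by
  obtain ⟨t', h1, h2⟩ := hL
  refine ⟨t', h1, fun z h3 h4 => ?_⟩
  obtain ⟨h5, h6⟩ := h2 z h3 h4
  refine ⟨h5, h6.trans (mul_le_mul_of_nonneg_right h ?_)⟩
  have : 1 ≤ t' := by
    rw [abs_le] at h1
    linarith
  exact div_nonneg (Real.log_nonneg this) (by norm_num)

theorem ord_tr' {G : ℂ → ℂ} (hG : Differentiable ℂ G) (hne : ∃ u, G u ≠ 0) {a b c : ℂ} (ha : a ≠ 0)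
    (hc : c ≠ 0) (u0 : ℂ) :
    analyticOrderNatAt (fun u => c * G (a * u + b)) u0 = analyticOrderNatAt G (a * u0 + b) := by
  obtain ⟨h, hh, hh0, hGh⟩ := single hG hne (a * u0 + b)
  obtain ⟨n, hn⟩ : ∃ n : ℕ, n = analyticOrderNatAt G (a * u0 + b) := ⟨_, rfl⟩
  rw [← hn] at hGh ⊢
  have hd : Differentiable ℂ fun u : ℂ => a * u + b := by fun_prop
  refine ord_of (h := fun u => c * (a ^ n * h (a * u + b))) ?_ ?_ ?_ fun u => ?_
  · exact (hG.comp hd).const_mul c
  · exact ((hh.comp hd).const_mul (a ^ n)).const_mul c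
  · exact mul_ne_zero hc (mul_ne_zero (pow_ne_zero _ ha) hh0)
  · rw [hGh]
    have : a * u + b - (a * u0 + b) = a * (u - u0) := by ring
    rw [this, mul_pow]
    ring

theorem cnx (h1 : SH_GROW) (h2 : S_NGN) (h3 : S_CNT) (h4 : SH_REL) : SH_CNX := by
  intro B FF FT h hD
  obtain ⟨R, η1, c0, T0, hR, hη1, hc0, hT0, hG⟩ := h1 B FF FT h hD
  obtain ⟨η3, C, a3, hη3, hC, ha3, hcnt⟩ := h3
  obtain ⟨η2, hη2, hngn⟩ := h2 η3 hη3
  refine ⟨R, min η1 η2, c0, a3, C, max T0 6, hR, lt_min hη1 hη2, hc0, ha3, hC,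
    hT0.trans (le_max_left _ _), ?_⟩
  intro T τ a t J j hT ha hStd ht1 ht2 hj hLoc hTop S hS
  classical
  have hTT0 : T0 ≤ T := (le_max_left _ _).trans hT
  have hT6 : 6 ≤ T := (le_max_right _ _).trans hT
  have ha1 : 1 ≤ a := ha3.trans ha
  have ha0 : 0 ≤ a := by linarith
  have hτ : 0 < τ := hStd.tau
  obtain ⟨tj, htj, hNN⟩ := hLoc j le_rfl hj
  set A : ℝ := 2 ^ j * a with hA
  have h2j : (1 : ℝ) ≤ 2 ^ j := one_le_pow₀ (by norm_num)
  have haA : a ≤ A := by rw [hA]; nlinarith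
  have hA0 : 0 < A := by linarith
  have hlogT : 0 < Real.log T := Real.log_pos (by linarith)
  set r : ℝ := ra T A with hr
  have hr_eq : r = A / (Real.log T / 2) := rfl
  have hr0 : 0 < r := by rw [hr_eq]; positivity
  set F : ℂ → ℂ := fun z => FF (I * tj + r * z) with hF
  have hgrow : Grow A (r ^ 2 / (4 * τ)) F :=
    hG T τ a t tj J j hTT0 ha1 hStd ht1 ht2 hj (LocH_mono ha0 (min_le_left _ _) le_rfl hLoc)
      (TopOK_mono (by linarith) (min_le_left _ _) hTop) htj
      (NN_mono hA0.le (min_le_left _ _) hNN)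
  have hNG : NG (1 / 2) A (r ^ 2 / (4 * τ)) η3 F :=
    hngn A _ F (by linarith) (NN_mono hA0.le (min_le_right _ _) hNN) hgrow
  have hgA : A / 2 ≤ r ^ 2 / (4 * τ) := by
    have e1 : a = 2 * τ * (Real.log T / 2) ^ 2 := hStd.a_eq
    have e2 : r * (Real.log T / 2) = A := by rw [hr_eq]; field_simp
    rw [le_div_iff₀ (by positivity)]
    have e3 : A * a ≤ A * A := mul_le_mul_of_nonneg_left haA hA0.le
    have hl2 : 0 < (Real.log T / 2) ^ 2 := by positivity
    have e4 : A / 2 * (4 * τ) * (Real.log T / 2) ^ 2 = A * a := by rw [e1]; ring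
    have e5 : r ^ 2 * (Real.log T / 2) ^ 2 = A * A := by rw [← e2]; ring
    by_contra hcon
    push Not at hcon
    have := mul_lt_mul_of_pos_right hcon hl2
    rw [e4, e5] at this
    linarith
  set k : ℝ := r / (2 * Real.sqrt (Real.pi * τ)) with hk
  have hk0 : 0 < k := by
    have : 0 < Real.sqrt (Real.pi * τ) := Real.sqrt_pos.2 (mul_pos Real.pi_pos hτ)
    rw [hk]; positivity
  have hrel : ∀ z : ℂ, FT τ (I * tj + r * z) = (k : ℂ) * UU (r ^ 2 / (4 * τ)) F z := fun z =>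
    h4 B FF FT h hD τ r tj z hτ hr0
  have hkc : (k : ℂ) ≠ 0 := by exact_mod_cast hk0.ne'
  have hrc : (r : ℂ) ≠ 0 := by exact_mod_cast hr0.ne'
  have hUU : UU (r ^ 2 / (4 * τ)) F = fun z => (k : ℂ)⁻¹ * FT τ (r * z + I * tj) := by
    funext z
    rw [add_comm ((r : ℂ) * z), hrel, ← mul_assoc, inv_mul_cancel₀ hkc, one_mul]
  have hker := hD.heatd τ hτ.le
  have hne : ∃ u, FT τ u ≠ 0 := by
    refine ⟨((B + 1 : ℝ) : ℂ), fun h0 => ?_⟩
    have h1 := hD.strip τ _ hτ.le h0
    rw [Complex.ofReal_re] at h1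
    have h2 := (le_abs_self _).trans h1
    linarith
  have hord : ∀ s : ℂ, analyticOrderNatAt (UU (r ^ 2 / (4 * τ)) F) ((s - I * tj) / r) =
      analyticOrderNatAt (FT τ) s := by
    intro s
    rw [hUU, ord_tr' hker hne hrc (inv_ne_zero hkc)]
    congr 1
    field_simp
    ring
  have hinj : Set.InjOn (fun s : ℂ => (s - I * tj) / r) (S : Set ℂ) := by
    intro x _ y _ hxy
    have h5 : (x - I * tj) / r = (y - I * tj) / r := hxy
    rw [div_left_inj' hrc] at h5
    exact sub_left_injective h5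
  have key := hcnt A (r ^ 2 / (4 * τ)) F (ha.trans haA) hgA hNG
    (S.image fun s : ℂ => (s - I * tj) / r) (by
      intro z hz
      rw [Finset.mem_image] at hz
      obtain ⟨s, hs, rfl⟩ := hz
      obtain ⟨s1, s2, s3⟩ := hS s hs
      constructor
      · rw [norm_div, Complex.norm_real, Real.norm_eq_abs, abs_of_pos hr0, div_le_iff₀ hr0]
        have e1 : ‖s - I * tj‖ ≤ |(s - I * tj).re| + |(s - I * tj).im| :=
          Complex.norm_le_abs_re_add_abs_im _
        have e2 : (s - I * tj).re = s.re := by simp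
        have e3 : (s - I * tj).im = (s.im - t) + (t - tj) := by simp
        rw [e2, e3] at e1
        have e4 : |(s.im - t) + (t - tj)| ≤ |s.im - t| + |t - tj| := abs_add_le _ _
        have e5 : |t - tj| ≤ r / 100 := htj
        have e6 : |s.re| ≤ r := s1
        have e7 : |s.im - t| ≤ r := s2
        linarith
      · have e1 : UU (r ^ 2 / (4 * τ)) F ((s - I * tj) / r) = (k : ℂ)⁻¹ * FT τ s := by
          have e2 : (r : ℂ) * ((s - I * tj) / r) + I * tj = s := by
            rw [mul_div_cancel₀ _ hrc, sub_add_cancel]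
          rw [hUU]
          show (k : ℂ)⁻¹ * FT τ ((r : ℂ) * ((s - I * tj) / r) + I * tj) = (k : ℂ)⁻¹ * FT τ s
          rw [e2]
        rw [e1, s3, mul_zero])
  rw [Finset.sum_image hinj] at key
  simp only [hord] at key
  exact key

end Pool.Agent.Y228.LD
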